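import Pool.Agent.KS6_11.KyFanSharp.Final

/-!
# MP_03f9bf_an : the optimal constants in the Ky Fan norm inequality for partial traces

For Hermitian `A, B` put `S_A = A ⊗ I + I ⊗ A`, `D_B = B ⊗ I - I ⊗ B`,
`L(A,B) = Tr_1 (S_A D_B)` and `R(B) = Tr_1 (D_B)`.  We determine, for all `k ≤ n`, the best
constant `C` in `‖L(A,B)‖_(k) ≤ C σ_1(A) ‖R(B)‖_(k)`, exactly for `2 k ≤ n` and up to `5 / n`
for `n ≤ 2 k`.  In particular the inequality of the question (with `C = 2`) is true for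
`2 k ≤ n` and false for `(2 k - n)² > 20 k`, `2 k > n`.
-/

open Matrix
open scoped Kronecker

namespace Pool.Agent.Results.MP_03f9bf_an.OptimalConstants

open Pool.Agent.KS6_11.KyFanSharp

/-- The `i`-th singular value (zero-indexed, decreasing order) of a square complex matrix. -/
noncomputable def sv {n : ℕ} (M : Matrix (Fin n) (Fin n) ℂ) (i : ℕ) : ℝ :=
  (Matrix.toEuclideanLin M).singularValues i

/-- The Ky Fan `k`-norm: the sum of the `k` largest singular values. -/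
noncomputable def kyFan {n : ℕ} (k : ℕ) (M : Matrix (Fin n) (Fin n) ℂ) : ℝ :=
  ∑ i ∈ Finset.range k, sv M i

/-- Partial trace over the first tensor factor. -/
def tr1 {n : ℕ} (M : Matrix (Fin n × Fin n) (Fin n × Fin n) ℂ) : Matrix (Fin n) (Fin n) ℂ :=
  Matrix.of fun j l => ∑ i, M (i, j) (i, l)

/-- `S_A = A ⊗ I + I ⊗ A`. -/
def SA {n : ℕ} (A : Matrix (Fin n) (Fin n) ℂ) : Matrix (Fin n × Fin n) (Fin n × Fin n) ℂ :=
  A ⊗ₖ (1 : Matrix (Fin n) (Fin n) ℂ) + (1 : Matrix (Fin n) (Fin n) ℂ) ⊗ₖ A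

/-- `D_B = B ⊗ I - I ⊗ B`. -/
def DB {n : ℕ} (B : Matrix (Fin n) (Fin n) ℂ) : Matrix (Fin n × Fin n) (Fin n × Fin n) ℂ :=
  B ⊗ₖ (1 : Matrix (Fin n) (Fin n) ℂ) - (1 : Matrix (Fin n) (Fin n) ℂ) ⊗ₖ B

/-- `L(A,B) = Tr_1 (S_A D_B)`. -/
def L {n : ℕ} (A B : Matrix (Fin n) (Fin n) ℂ) : Matrix (Fin n) (Fin n) ℂ := tr1 (SA A * DB B)

/-- `R(B) = Tr_1 (D_B)`. -/
def R {n : ℕ} (B : Matrix (Fin n) (Fin n) ℂ) : Matrix (Fin n) (Fin n) ℂ := tr1 (DB B)

/-- `‖L(A,B)‖_(k) ≤ C σ_1(A) ‖R(B)‖_(k)` for all Hermitian `n × n` matrices `A`, `B`. -/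
def Holds (C : ℝ) (n k : ℕ) : Prop :=
  ∀ A B : Matrix (Fin n) (Fin n) ℂ, A.IsHermitian → B.IsHermitian →
    kyFan k (L A B) ≤ C * sv A 0 * kyFan k (R B)

lemma tr1_kron {n : ℕ} (X Y : Matrix (Fin n) (Fin n) ℂ) : tr1 (X ⊗ₖ Y) = X.trace • Y := by
  ext j l
  simp [tr1, Matrix.trace, Finset.sum_mul]

lemma tr1_add {n : ℕ} (X Y : Matrix (Fin n × Fin n) (Fin n × Fin n) ℂ) :
    tr1 (X + Y) = tr1 X + tr1 Y := by
  ext j l
  simp [tr1, Finset.sum_add_distrib]

lemma tr1_sub {n : ℕ} (X Y : Matrix (Fin n × Fin n) (Fin n × Fin n) ℂ) :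
    tr1 (X - Y) = tr1 X - tr1 Y := by
  ext j l
  simp [tr1, Finset.sum_sub_distrib]

lemma L_eq {n : ℕ} (A B : Matrix (Fin n) (Fin n) ℂ) :
    L A B = (A * B).trace • (1 : Matrix (Fin n) (Fin n) ℂ) - A.trace • B + B.trace • A
      - (n : ℂ) • (A * B) := by
  unfold L SA DB
  have h : (A ⊗ₖ (1 : Matrix (Fin n) (Fin n) ℂ) + (1 : Matrix (Fin n) (Fin n) ℂ) ⊗ₖ A) *
      (B ⊗ₖ (1 : Matrix (Fin n) (Fin n) ℂ) - (1 : Matrix (Fin n) (Fin n) ℂ) ⊗ₖ B)
      = ((A * B) ⊗ₖ (1 : Matrix (Fin n) (Fin n) ℂ) - A ⊗ₖ B) +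
        (B ⊗ₖ A - (1 : Matrix (Fin n) (Fin n) ℂ) ⊗ₖ (A * B)) := by
    rw [add_mul, mul_sub, mul_sub, ← mul_kronecker_mul, ← mul_kronecker_mul,
      ← mul_kronecker_mul, ← mul_kronecker_mul]
    simp
  rw [h, tr1_add, tr1_sub, tr1_sub, tr1_kron, tr1_kron, tr1_kron, tr1_kron]
  simp only [Matrix.trace_one, Fintype.card_fin]
  abel

lemma R_eq {n : ℕ} (B : Matrix (Fin n) (Fin n) ℂ) :
    R B = B.trace • (1 : Matrix (Fin n) (Fin n) ℂ) - (n : ℂ) • B := by
  unfold R DB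
  rw [tr1_sub, tr1_kron, tr1_kron]
  simp

lemma trace_toE {n : ℕ} (M : Matrix (Fin n) (Fin n) ℂ) :
    LinearMap.trace ℂ (EuclideanSpace ℂ (Fin n)) (Matrix.toEuclideanLin M) = M.trace :=
  Matrix.trace_toLin_eq M (PiLp.basisFun 2 ℂ (Fin n))

lemma toE_L {n : ℕ} (A B : Matrix (Fin n) (Fin n) ℂ) :
    Matrix.toEuclideanLin (L A B)
      = Lop n (Matrix.toEuclideanLin A) (Matrix.toEuclideanLin B) := by
  have h1 : Matrix.toEuclideanLin A ∘ₗ Matrix.toEuclideanLin B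
      = Matrix.toEuclideanLin (A * B) := (Matrix.toLpLin_mul_same 2 A B).symm
  rw [Lop, h1, trace_toE, trace_toE, trace_toE, L_eq, map_sub, map_add, map_sub, map_smul,
    map_smul, map_smul, map_smul, Matrix.toLpLin_one]

lemma toE_R {n : ℕ} (B : Matrix (Fin n) (Fin n) ℂ) :
    Matrix.toEuclideanLin (R B) = Rop n (Matrix.toEuclideanLin B) := by
  rw [Rop, trace_toE, R_eq, map_sub, map_smul, map_smul, Matrix.toLpLin_one]

lemma fr (n : ℕ) : Module.finrank ℂ (EuclideanSpace ℂ (Fin n)) = n := by simp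

/-- Realise symmetric operators by Hermitian matrices. -/
lemma exM {n : ℕ} (T : EuclideanSpace ℂ (Fin n) →ₗ[ℂ] EuclideanSpace ℂ (Fin n))
    (hT : T.IsSymmetric) :
    ∃ M : Matrix (Fin n) (Fin n) ℂ, M.IsHermitian ∧ Matrix.toEuclideanLin M = T := by
  refine ⟨Matrix.toEuclideanLin.symm T, ?_, LinearEquiv.apply_symm_apply _ T⟩
  rw [← Matrix.isSymmetric_toEuclideanLin_iff, LinearEquiv.apply_symm_apply]
  exact hT

lemma kyFan_nonneg {n : ℕ} (k : ℕ) (M : Matrix (Fin n) (Fin n) ℂ) : 0 ≤ kyFan k M :=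
  Finset.sum_nonneg fun _ _ => LinearMap.singularValues_nonneg _ _

lemma Holds.mono {C D : ℝ} {n k : ℕ} (h : Holds C n k) (hCD : C ≤ D) : Holds D n k := by
  intro A B hA hB
  refine (h A B hA hB).trans ?_
  have h1 : 0 ≤ sv A 0 := LinearMap.singularValues_nonneg _ _
  have h2 := kyFan_nonneg k (R B)
  exact mul_le_mul_of_nonneg_right (mul_le_mul_of_nonneg_right hCD h1) h2

lemma holds_adm {C : ℝ} {n k : ℕ} (hk : 1 ≤ k) (hkn : k ≤ n) (hC : Adm C (k / n)) :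
    Holds C n k := by
  intro A B hA hB
  have h := op_upper (fr n) hk hkn (EuclideanSpace.basisFun (Fin n) ℂ)
    (Matrix.toEuclideanLin A) (Matrix.toEuclideanLin B)
    (Matrix.isSymmetric_toEuclideanLin_iff.2 hA) (Matrix.isSymmetric_toEuclideanLin_iff.2 hB) hC
  unfold kyFan sv
  rw [toE_L, toE_R]
  exact h

lemma two_le {C : ℝ} {n k : ℕ} (h2 : 2 ≤ n) (hk : 1 ≤ k) (hkn : k ≤ n) (h : Holds C n k) :
    2 ≤ C := by
  obtain ⟨TA, TB, hA, hB, h1, h3, h4⟩ := op_two (fr n) h2 hk hkn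
    (EuclideanSpace.basisFun (Fin n) ℂ)
  obtain ⟨A, hAh, rfl⟩ := exM TA hA
  obtain ⟨B, hBh, rfl⟩ := exM TB hB
  have h5 := h A B hAh hBh
  unfold kyFan sv at h5
  rw [toE_L, toE_R] at h5
  set κ := ∑ i ∈ Finset.range k, (Rop n (Matrix.toEuclideanLin B)).singularValues i
  have h6 : 2 * κ ≤ C * (Matrix.toEuclideanLin A).singularValues 0 * κ := h4.trans h5
  have h7 : 2 ≤ C * (Matrix.toEuclideanLin A).singularValues 0 := le_of_mul_le_mul_right h6 h3
  have h8 := LinearMap.singularValues_nonneg (Matrix.toEuclideanLin A) 0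
  by_contra hneg
  push Not at hneg
  rcases le_total C 0 with h9 | h9
  · nlinarith
  · nlinarith

lemma lower_le {C : ℝ} {n k : ℕ} (h2 : 2 ≤ n) (hkn : k ≤ n) (hnk : n ≤ 2 * k)
    (h : Holds C n k) : 1 + (k : ℝ) / n + n / (4 * k) - 5 / n ≤ C := by
  have hC2 := two_le h2 (by omega) hkn h
  have hn0 : (0 : ℝ) < n := by exact_mod_cast (by omega : 0 < n)
  have hk0 : (0 : ℝ) < k := by exact_mod_cast (by omega : 0 < k)
  rcases Nat.lt_or_ge k 3 with hk3 | hk3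
  · have h5 : (5 : ℝ) / 4 ≤ 5 / n := by
      rw [div_le_div_iff₀ (by norm_num) hn0]
      have : (n : ℝ) ≤ 4 := by exact_mod_cast (by omega : n ≤ 4)
      linarith
    have h6 : (k : ℝ) / n ≤ 1 := by rw [div_le_one hn0]; exact_mod_cast hkn
    have h7 : (n : ℝ) / (4 * k) ≤ 1 / 2 := by
      rw [div_le_div_iff₀ (by positivity) (by norm_num)]
      have : (n : ℝ) ≤ 2 * k := by exact_mod_cast hnk
      linarith
    linarith
  · obtain ⟨TA, TB, hA, hB, h1, h3, h4⟩ := op_lower (fr n) hk3 hkn hnk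
      (EuclideanSpace.basisFun (Fin n) ℂ)
    obtain ⟨A, hAh, rfl⟩ := exM TA hA
    obtain ⟨B, hBh, rfl⟩ := exM TB hB
    have h5 := h A B hAh hBh
    unfold kyFan sv at h5
    rw [toE_L, toE_R] at h5
    set κ := ∑ i ∈ Finset.range k, (Rop n (Matrix.toEuclideanLin B)).singularValues i
    have hκ : 0 ≤ κ := Finset.sum_nonneg fun i _ => LinearMap.singularValues_nonneg _ i
    have h8 := LinearMap.singularValues_nonneg (Matrix.toEuclideanLin A) 0
    have h9 : C * (Matrix.toEuclideanLin A).singularValues 0 * κ ≤ C * (2 * n) := by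
      calc C * (Matrix.toEuclideanLin A).singularValues 0 * κ ≤ C * 1 * κ := by
            refine mul_le_mul_of_nonneg_right ?_ hκ
            exact mul_le_mul_of_nonneg_left h1 (by linarith)
        _ ≤ C * (2 * n) := by
            rw [mul_one]; exact mul_le_mul_of_nonneg_left h3 (by linarith)
    have h10 : (2 * n) * (1 + (k : ℝ) / n + n / (4 * k) - 5 / n) ≤ (2 * n) * C := by
      linarith [h4.trans (h5.trans h9)]
    exact le_of_mul_le_mul_left h10 (by positivity)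

/-- **Main result.** The best constant `C` in `‖L(A,B)‖_(k) ≤ C σ_1(A) ‖R(B)‖_(k)` is `2` for
`2 k ≤ n`; for `n ≤ 2 k` it lies between `1 + k/n + n/(4k) - 5/n` and `1 + k/n + n/(4k)`.  In
particular the inequality with the constant `2` fails when `2 k > n` and `(2 k - n)² > 20 k`,
and the best constant valid for all `k ≤ n` is `9/4`. -/
theorem result :
    (∀ n k : ℕ, 1 ≤ k → 2 * k ≤ n → ∀ C : ℝ, Holds C n k ↔ 2 ≤ C) ∧
    (∀ n k : ℕ, 2 ≤ n → k ≤ n → n ≤ 2 * k →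
      (∀ C : ℝ, 1 + (k : ℝ) / n + n / (4 * k) ≤ C → Holds C n k) ∧
      (∀ C : ℝ, Holds C n k → 2 ≤ C ∧ 1 + (k : ℝ) / n + n / (4 * k) - 5 / n ≤ C)) ∧
    (∀ n k : ℕ, k ≤ n → n < 2 * k → 20 * k < (2 * k - n) ^ 2 → ¬ Holds 2 n k) ∧
    (∀ C : ℝ, (∀ n k : ℕ, 1 ≤ k → k ≤ n → Holds C n k) ↔ 9 / 4 ≤ C) := by
  refine ⟨?_, ?_, ?_, ?_⟩
  · intro n k hk hkn C
    refine ⟨fun h => two_le (by omega) hk (by omega) h, fun h => ?_⟩
    refine Holds.mono (holds_adm hk (by omega) (Or.inl ⟨rfl, ?_⟩)) h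
    have hn0 : (0 : ℝ) < n := by exact_mod_cast (by omega : 0 < n)
    rw [div_le_div_iff₀ hn0 (by norm_num)]
    have : (2 : ℝ) * k ≤ n := by exact_mod_cast hkn
    linarith
  · intro n k h2 hkn hnk
    refine ⟨fun C hC => ?_, fun C h => ⟨two_le h2 (by omega) hkn h, lower_le h2 hkn hnk h⟩⟩
    have hn0 : (0 : ℝ) < n := by exact_mod_cast (by omega : 0 < n)
    have hk0 : (0 : ℝ) < k := by exact_mod_cast (by omega : 0 < k)
    refine Holds.mono (holds_adm (C := 1 + (k : ℝ) / n + n / (4 * k)) (by omega) hkn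
      (Or.inr ⟨?_, ?_, ?_⟩)) hC
    · field_simp
    · rw [div_le_div_iff₀ (by norm_num) hn0]
      have : (n : ℝ) ≤ 2 * k := by exact_mod_cast hnk
      linarith
    · rw [div_le_one hn0]; exact_mod_cast hkn
  · intro n k hkn hnk h20 h
    have h2 : 2 ≤ n := by
      by_contra hn
      push Not at hn
      have h1 : 2 * k - n ≤ 2 := by omega
      have : (2 * k - n) ^ 2 ≤ 2 ^ 2 := Nat.pow_le_pow_left h1 2
      omega
    have h3 := lower_le h2 hkn hnk.le h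
    have hn0 : (0 : ℝ) < n := by exact_mod_cast (by omega : 0 < n)
    have hk0 : (0 : ℝ) < k := by exact_mod_cast (by omega : 0 < k)
    have h4 : (20 : ℝ) * k < (2 * k - n) ^ 2 := by
      have h5 : ((2 * k - n : ℕ) : ℝ) = 2 * k - n := by
        rw [Nat.cast_sub hnk.le]; push_cast; ring
      have h6 : ((20 * k : ℕ) : ℝ) < (((2 * k - n) ^ 2 : ℕ) : ℝ) := by exact_mod_cast h20
      push_cast [h5] at h6
      exact h6
    have h7 : 1 + (k : ℝ) / n + n / (4 * k) - 5 / n - 2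
        = ((2 * k - n) ^ 2 - 20 * k) / (4 * k * n) := by
      field_simp; ring
    have h8 : 0 < ((2 * (k : ℝ) - n) ^ 2 - 20 * k) / (4 * k * n) :=
      div_pos (by linarith) (by positivity)
    linarith
  · intro C
    constructor
    · intro h
      by_contra hneg
      push Not at hneg
      obtain ⟨m, hm⟩ := exists_nat_gt (5 / (9 / 4 - C))
      have hpos : 0 < 9 / 4 - C := by linarith
      have h1 := lower_le (n := m + 2) (k := m + 2) (by omega) le_rfl (by omega)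
        (h (m + 2) (m + 2) (by omega) le_rfl)
      have h2 : (0 : ℝ) < ((m + 2 : ℕ) : ℝ) := by positivity
      have h3 : ((m + 2 : ℕ) : ℝ) / ((m + 2 : ℕ) : ℝ) = 1 := div_self h2.ne'
      have h4 : ((m + 2 : ℕ) : ℝ) / (4 * ((m + 2 : ℕ) : ℝ)) = 1 / 4 := by field_simp
      rw [h3, h4] at h1
      have h5 : 5 / ((m + 2 : ℕ) : ℝ) < 9 / 4 - C := by
        rw [div_lt_iff₀ h2]
        rw [div_lt_iff₀ hpos] at hm
        push_cast
        nlinarith
      linarith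
    · intro hC n k hk hkn
      have hn0 : (0 : ℝ) < n := by exact_mod_cast (by omega : 0 < n)
      have hk0 : (0 : ℝ) < k := by exact_mod_cast (by omega : 0 < k)
      rcases le_total ((k : ℝ) / n) (1 / 2) with h1 | h1
      · exact Holds.mono (holds_adm hk hkn (Or.inl ⟨rfl, h1⟩)) (by linarith)
      · have h2 : (k : ℝ) / n ≤ 1 := by rw [div_le_one hn0]; exact_mod_cast hkn
        refine Holds.mono (holds_adm hk hkn (Or.inr ⟨rfl, h1, h2⟩)) (le_trans ?_ hC)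
        set θ := (k : ℝ) / n
        have h3 : 1 / (4 * θ) = 5 / 4 - θ - (1 - θ) * (4 * θ - 1) / (4 * θ) := by
          field_simp; ring
        have h4 : 0 ≤ (1 - θ) * (4 * θ - 1) / (4 * θ) :=
          div_nonneg (mul_nonneg (by linarith) (by linarith)) (by linarith)
        linarith

end Pool.Agent.Results.MP_03f9bf_an.OptimalConstants
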